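import Mathlib

/-! BI-13: sampling. A continuous function is somewhere at most its mean: for a suitable offset `s`
the Riemann sum of `F` at the points `(i + s) / H` is at most the integral. -/

open MeasureTheory

namespace Pool.Agent.Helper57.BI

theorem offset (H : ℕ) (hH : 0 < H) (F : ℝ → ℝ) (hF : Continuous F) :
    ∃ s ∈ Set.Icc (0 : ℝ) 1, (∑ i ∈ Finset.range H, F ((i + s) / H)) / H ≤
      ∫ t in (0 : ℝ)..1, F t := by
  have hH0 : (0 : ℝ) < H := by exact_mod_cast hH
  have hint : ∀ a b : ℝ, IntervalIntegrable F volume a b := fun a b => hF.intervalIntegrable a b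
  have h1 : ∀ n : ℕ, ∑ i ∈ Finset.range n, (∫ s in (0 : ℝ)..1, F ((i + s) / H)) / H =
      ∫ t in (0 : ℝ)..((n : ℝ) / H), F t := by
    intro n
    induction n with
    | zero => simp
    | succ n ih =>
      rw [Finset.sum_range_succ, ih]
      have h2 : (∫ s in (0 : ℝ)..1, F (((n : ℕ) + s) / H)) / H =
          ∫ t in ((n : ℝ) / H)..(((n + 1 : ℕ) : ℝ) / H), F t := by
        have h3 : ∀ s : ℝ, ((n : ℝ) + s) / H = s / H + (n : ℝ) / H := by intro s; ring
        simp_rw [h3]
        rw [intervalIntegral.integral_comp_div_add F hH0.ne' ((n : ℝ) / H)]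
        rw [smul_eq_mul, mul_div_assoc, mul_comm, div_mul_cancel₀ _ hH0.ne']
        congr 1
        · simp
        · push_cast; ring
      rw [h2, intervalIntegral.integral_add_adjacent_intervals (hint _ _) (hint _ _)]
  have h2 := h1 H
  rw [div_self hH0.ne'] at h2
  have hcont : ∀ i : ℕ, Continuous fun s : ℝ => F ((i + s) / H) := fun i => by fun_prop
  set G : ℝ → ℝ := fun s => (∑ i ∈ Finset.range H, F ((i + s) / H)) / H with hG
  have hGc : Continuous G := by
    rw [hG]
    fun_prop
  have h3 : ∫ s in (0 : ℝ)..1, G s = ∫ t in (0 : ℝ)..1, F t := by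
    rw [← h2, hG]
    rw [intervalIntegral.integral_div, intervalIntegral.integral_finsetSum, Finset.sum_div]
    intro i _
    exact (hcont i).intervalIntegrable _ _
  obtain ⟨s, hs, hmin⟩ := isCompact_Icc.exists_isMinOn (Set.nonempty_Icc.2 zero_le_one)
    (hGc.continuousOn (s := Set.Icc (0 : ℝ) 1))
  refine ⟨s, hs, ?_⟩
  have h4 : ∫ _ in (0 : ℝ)..1, G s ≤ ∫ t in (0 : ℝ)..1, G t := by
    apply intervalIntegral.integral_mono_on zero_le_one
    · exact intervalIntegrable_const
    · exact hGc.intervalIntegrable _ _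
    · intro x hx
      exact hmin hx
  rw [intervalIntegral.integral_const, h3] at h4
  simpa using h4

end Pool.Agent.Helper57.BI
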